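import Mathlib
import Pool.Agent.H698Z.PopDefs
import Pool.Agent.H698Z.PopFinal

set_option autoImplicit false

namespace Pool.Agent.Results.MP_952e97_co.CubePopular

open Pool.Agent.H698Z.Pop

/-- If `rank M₁ = 2`, `rank M₂ = 1`, `rank (M₂ - M₁) = 2`, then `(M₁, M₂)` has `α^3` popular
differences. -/
theorem result : ∀ M₁ M₂ : Matrix (Fin 2) (Fin 2) ℤ,
    rankQ M₁ = 2 → rankQ M₂ = 1 → rankQ (M₂ - M₁) = 2 → HasCubePopular M₁ M₂ :=
  final

end Pool.Agent.Results.MP_952e97_co.CubePopular
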